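import Pool.Agent.X322.KPZ

/-!
# A compatible pair of operators on the Kalton-Peck space with non-compact difference
-/

set_option autoImplicit false

namespace Pool.Agent.Results.MP_23ded2_an.OtherSequence

open Pool.Agent.X322.KP

/-- The real Hilbert space `ℓ²`. -/
def H : Type := lp (fun _ : ℕ => ℝ) 2

noncomputable instance : NormedAddCommGroup H := lp.normedAddCommGroup

noncomputable instance : NormedSpace ℝ H := lp.instNormedSpace

/-- The coordinates of a vector of `ℓ²`. -/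
def co (x : lp (fun _ : ℕ => ℝ) 2) (n : ℕ) : ℝ := x n

/-- The Kalton-Peck map `x ↦ (x_n log (|x_n| / ‖x‖))_n`, on all of `ℓ²`. -/
noncomputable def KP (x : H) (n : ℕ) : ℝ := co x n * Real.log (|co x n| / ‖x‖)

/-- The space of pairs `(y, x)`, `y` a real sequence and `x ∈ ℓ²`. -/
def Pairs : Type := (ℕ → ℝ) × H

noncomputable instance : AddCommGroup Pairs := Prod.instAddCommGroup

noncomputable instance : Module ℝ Pairs := Prod.instModule

/-- The Kalton-Peck space, as a subspace of `Pairs`: all pairs `(y, x)` such that `y - KP x` is in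
`ℓ²`. -/
noncomputable def Z2sub : Submodule ℝ Pairs where
  carrier := {z | ∃ w : H, ∀ n, co w n = z.1 n - KP z.2 n}
  add_mem' := fun h h' => mem_add h h'
  zero_mem' := mem_zero
  smul_mem' := fun c _ h => mem_smul c h

/-- The Kalton-Peck space. -/
def Z2 : Type := Z2sub

noncomputable instance : AddCommGroup Z2 := Submodule.addCommGroup Z2sub

noncomputable instance : Module ℝ Z2 := Submodule.module Z2sub

/-- The first component `y` of `(y, x) ∈ Z2`. -/
def Z2.fst (z : Z2) : ℕ → ℝ := z.1.1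

/-- The second component `x` of `(y, x) ∈ Z2`. -/
def Z2.snd (z : Z2) : H := z.1.2

lemma Z2.mem (z : Z2) : ∃ w : H, ∀ n, co w n = z.fst n - KP z.snd n := z.2

/-- The quasi-norm `‖(y, x)‖ = ‖y - KP x‖ + ‖x‖`. -/
noncomputable def qn (z : Z2) : ℝ := ‖z.mem.choose‖ + ‖z.snd‖

/-- `(y, x)` is a pair of finitely supported sequences. -/
def FinSupp (z : Z2) : Prop := {n | z.fst n ≠ 0}.Finite ∧ {n | co z.snd n ≠ 0}.Finite

/-- The finitely supported pairs are dense for the quasi-norm. -/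
def DenseFin : Prop := ∀ (z : Z2) (ε : ℝ), 0 < ε → ∃ z', FinSupp z' ∧ qn (z - z') < ε

/-- The quasi-norm is complete. -/
def IsCompl : Prop := ∀ z : ℕ → Z2,
  (∀ ε : ℝ, 0 < ε → ∃ N : ℕ, ∀ i ≥ N, ∀ j ≥ N, qn (z i - z j) < ε) →
    ∃ z' : Z2, ∀ ε : ℝ, 0 < ε → ∃ N : ℕ, ∀ i ≥ N, qn (z i - z') < ε

/-- `0 → H → Z2 → H → 0` is an exact sequence of bounded operators, the first one being an
isomorphic embedding. -/
structure IsExactSeq (j : H →ₗ[ℝ] Z2) (q : Z2 →ₗ[ℝ] H) : Prop where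
  j_bounded : ∃ C : ℝ, ∀ y, qn (j y) ≤ C * ‖y‖
  j_embedding : ∃ c : ℝ, 0 < c ∧ ∀ y, c * ‖y‖ ≤ qn (j y)
  q_bounded : ∃ C : ℝ, ∀ z, ‖q z‖ ≤ C * qn z
  q_surjective : Function.Surjective q
  exact : ∀ z, q z = 0 ↔ ∃ y, j y = z

/-- The pair `(T, U)` is compatible with the sequence. -/
def IsCompatible (j : H →ₗ[ℝ] Z2) (q : Z2 →ₗ[ℝ] H) (T U : H →L[ℝ] H) : Prop :=
  ∃ τ : Z2 →ₗ[ℝ] Z2, (∃ C : ℝ, ∀ z, qn (τ z) ≤ C * qn z) ∧
    (∀ y, τ (j y) = j (T y)) ∧ ∀ z, q (τ z) = U (q z)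

/-- The space `Z2` is the completion of the space of finitely supported pairs, and there are an
exact sequence `0 → ℓ² → Z2 → ℓ² → 0` and a pair `(T, U)` compatible with it such that `T - U` is
not compact. -/
theorem result : DenseFin ∧ IsCompl ∧ ∃ (j : H →ₗ[ℝ] Z2) (q : Z2 →ₗ[ℝ] H) (T U : H →L[ℝ] H),
    IsExactSeq j q ∧ IsCompatible j q T U ∧ ¬ IsCompactOperator (T - U : H →L[ℝ] H) := by
  obtain ⟨h1, h2, j, q, T, U, ⟨h3, h4, h5, h6, h7⟩, h8, h9⟩ := main
  exact ⟨h1, h2, j, q, T, U, ⟨h3, h4, h5, h6, h7⟩, h8, h9⟩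

end Pool.Agent.Results.MP_23ded2_an.OtherSequence
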